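import Pool.Agent.H557R2.Mve.Red

/-!
# Shortest Path Most Vital Edges is W[1]-hard with respect to the deletion budget

The reduction is from Clique; it produces graphs all of whose edges have length `1`.
-/

set_option autoImplicit false

namespace Pool.Agent.Results.MP_40aef2_lc.BudgetW1Hard

open Pool.Agent.H557R2.Fpt Pool.Agent.H557R2.Mve

/-- **Shortest Path Most Vital Edges, parameterized by the number `k` of deleted edges, is
`W[1]`-hard**, even for graphs all of whose edges have length `1`. -/
theorem result : W1Hard spMVE ∧ W1Hard spMVEUnit := ⟨w1Hard_spMVE, w1Hard_spMVEUnit⟩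

end Pool.Agent.Results.MP_40aef2_lc.BudgetW1Hard
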